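import Pool.Agent.H70.NE.Targets
import Pool.Agent.H79.OQ.TBI

/-!
# NTL: the tail bound for nondeterministic trees
-/

set_option autoImplicit false

namespace Pool.Agent.H22.NE.NTL

open Finset Pool.Agent.H6.NB Pool.Agent.H70.OQ Pool.Agent.H70.NC Pool.Agent.H70.NE

theorem ic_nn (p : Prop) : 0 ≤ ic p := by
  unfold ic
  split_ifs <;> norm_num

theorem ic_zero {p : Prop} (h : ¬ p) : ic p = 0 := by
  unfold ic
  rw [if_neg h]

theorem cnt_ic {M : Type} [Fintype M] (p : M → Prop) : (cnt p : ℝ) = ∑ m, ic (p m) := by
  classical
  unfold cnt ic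
  rw [card_filter]
  push_cast
  refine sum_congr rfl fun m _ => ?_
  split_ifs <;> rfl

theorem cnt_le_add {M : Type} [Fintype M] (p q r : M → Prop) (h : ∀ m, p m → q m ∨ r m) :
    cnt p ≤ cnt q + cnt r := by
  classical
  unfold cnt
  calc (univ.filter p).card ≤ ((univ.filter q) ∪ (univ.filter r)).card := by
        refine card_le_card fun m hm => ?_
        rw [mem_filter] at hm
        rw [mem_union, mem_filter, mem_filter]
        rcases h m hm.2 with h' | h'
        · exact Or.inl ⟨mem_univ _, h'⟩
        · exact Or.inr ⟨mem_univ _, h'⟩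
    _ ≤ _ := card_union_le _ _

theorem pf_ntl (h1 : T_WAV) (h2 : T_TLG) (h3 : T_UNL) (h4 : Pool.Agent.H70.OQ.T_UWS) : T_NTL := by
  classical
  intro M R U _ _ _ _ _ _ D L η γ l T hη hη4 hγ hγ1 hL hlive hdep
  obtain ⟨hwa0, hwa1, -, -⟩ := h1 M η hη.le hη4
  obtain ⟨huw0, huw1⟩ := h4 M R (Lof l)
  have huw1 := huw1 (fun a => Pool.Agent.H79.OQ.TBI.Lof_nonempty l a)
  have hK : (0 : ℝ) < Fintype.card M := by exact_mod_cast Fintype.card_pos
  have hLp : (0 : ℝ) < L := by exact_mod_cast hL
  set K : ℝ := (Fintype.card M : ℝ) with hKdef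
  set A : M → (M × R → Bool) → Prop := fun m y => ∃ u, (T m u).eval y = true with hA
  set g : (M → R) → M → (M → Bool) → Bool :=
    fun h m β => decide (A m (glu h (Function.update β m false))) with hg
  -- (1)
  have hc : ∀ (h : M → R) (β : M → Bool),
      cnt (fun m => (∃ u, (T m u).eval (glu h β) = true) ↔ ¬ β m = true) ≤
      cnt (fun m => g h m β = !β m) +
      cnt (fun m => A m (glu h (Function.update β m false)) ∧
        ¬ A m (glu h (Function.update β m true))) := by
    intro h β
    refine cnt_le_add _ _ _ fun m hm => ?_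
    have hm' : A m (glu h β) ↔ ¬ β m = true := hm
    cases hb : β m with
    | false =>
      left
      have hup : Function.update β m false = β := by
        rw [← hb]
        exact Function.update_eq_self m β
      simp only [hg, hup, Bool.not_false, decide_eq_true_eq]
      exact hm'.2 (by rw [hb]; simp)
    | true =>
      have hup : Function.update β m true = β := by
        rw [← hb]
        exact Function.update_eq_self m β
      have hn : ¬ A m (glu h β) := by
        intro hh
        exact (hm'.1 hh) hb
      by_cases hgm : A m (glu h (Function.update β m false))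
      · right
        refine ⟨hgm, ?_⟩
        rw [hup]
        exact hn
      · left
        simp only [hg, Bool.not_true, decide_eq_false_iff_not]
        exact hgm
  -- (2)
  have hic : ∀ (h : M → R) (β : M → Bool),
      ic ((1 / 2 + η + γ) * K < cnt fun m => (∃ u, (T m u).eval (glu h β) = true) ↔ ¬ β m = true) ≤
      ic ((1 / 2 + η + γ / 2) * K < cnt fun m => g h m β = !β m) +
      2 / (γ * K) * ∑ m, ic (A m (glu h (Function.update β m false)) ∧
        ¬ A m (glu h (Function.update β m true))) := by
    intro h β
    rw [← cnt_ic]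
    have hUU : (0 : ℝ) ≤ 2 / (γ * K) * (cnt fun m => A m (glu h (Function.update β m false)) ∧
        ¬ A m (glu h (Function.update β m true)) : ℝ) := by positivity
    by_cases hev : (1 / 2 + η + γ) * K <
        cnt fun m => (∃ u, (T m u).eval (glu h β) = true) ↔ ¬ β m = true
    · by_cases hev2 : (1 / 2 + η + γ / 2) * K < cnt fun m => g h m β = !β m
      · rw [Pool.Agent.H79.OQ.TBI.ic_true hev2]
        have := Pool.Agent.H79.OQ.TBI.ic_le_one ((1 / 2 + η + γ) * K <
          cnt fun m => (∃ u, (T m u).eval (glu h β) = true) ↔ ¬ β m = true)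
        linarith
      · have hcc : (cnt (fun m => (∃ u, (T m u).eval (glu h β) = true) ↔ ¬ β m = true) : ℝ) ≤
            cnt (fun m => g h m β = !β m) + cnt (fun m => A m (glu h (Function.update β m false)) ∧
            ¬ A m (glu h (Function.update β m true))) := by exact_mod_cast hc h β
        have h5 : γ / 2 * K ≤ (cnt (fun m => A m (glu h (Function.update β m false)) ∧
            ¬ A m (glu h (Function.update β m true))) : ℝ) := by
          push Not at hev2
          nlinarith
        have h6 : 1 ≤ 2 / (γ * K) * (cnt (fun m => A m (glu h (Function.update β m false)) ∧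
            ¬ A m (glu h (Function.update β m true))) : ℝ) := by
          calc (1 : ℝ) = 2 / (γ * K) * (γ / 2 * K) := by field_simp
            _ ≤ _ := mul_le_mul_of_nonneg_left h5 (by positivity)
        have h7 := Pool.Agent.H79.OQ.TBI.ic_le_one ((1 / 2 + η + γ) * K <
          cnt fun m => (∃ u, (T m u).eval (glu h β) = true) ↔ ¬ β m = true)
        have h8 := ic_nn ((1 / 2 + η + γ / 2) * K < cnt fun m => g h m β = !β m)
        linarith
    · rw [ic_zero hev]
      have h8 := ic_nn ((1 / 2 + η + γ / 2) * K < cnt fun m => g h m β = !β m)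
      linarith
  -- (3)
  have hneg : ∀ (m m' : M) (β : M → Bool),
      ∑ h : M → R, uw (Lof l) h * ic (Neg (g h m) m' β) ≤ D / L := by
    intro m m' β
    by_cases hmm : m' = m
    · subst hmm
      have : ∀ h : M → R, ic (Neg (g h m') m' β) = 0 := by
        intro h
        apply ic_zero
        rintro ⟨ha, hb⟩
        simp only [hg, Function.update_idem] at ha hb
        rw [ha] at hb
        cases hb
      simp only [this, mul_zero, sum_const_zero]
      positivity
    · have := h3 M R U D L l (T m) (Function.update β m false) m' hL hlive (hdep m)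
      refine le_trans (le_of_eq (sum_congr rfl fun h _ => ?_)) this
      congr 2
      apply propext
      unfold Pool.Agent.H70.NE.Neg
      simp only [hg, decide_eq_true_eq, decide_eq_false_iff_not]
      rw [Function.update_comm hmm, Function.update_comm hmm]
  have hsec : ∀ (m : M) (β : M → Bool),
      ∑ h : M → R, uw (Lof l) h * ic (A m (glu h (Function.update β m false)) ∧
        ¬ A m (glu h (Function.update β m true))) ≤ D / L := by
    intro m β
    exact h3 M R U D L l (T m) β m hL hlive (hdep m)
  have hDL : (0 : ℝ) ≤ D / L := by positivity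
  -- first part
  have hfirst : ∑ β : M → Bool, wa η β * ∑ h : M → R, uw (Lof l) h *
      ic ((1 / 2 + η + γ / 2) * K < cnt fun m => g h m β = !β m) ≤
      2 / (η * γ ^ 2 * K) + 4 / γ ^ 2 * (D / L) := by
    calc ∑ β : M → Bool, wa η β * ∑ h : M → R, uw (Lof l) h *
          ic ((1 / 2 + η + γ / 2) * K < cnt fun m => g h m β = !β m)
        = ∑ h : M → R, uw (Lof l) h * ∑ β : M → Bool, wa η β *
          ic ((1 / 2 + η + γ / 2) * K < cnt fun m => g h m β = !β m) := by
          simp only [mul_sum]
          rw [sum_comm]
          refine sum_congr rfl fun h _ => sum_congr rfl fun β _ => ?_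
          ring
      _ ≤ ∑ h : M → R, uw (Lof l) h * (2 / (η * γ ^ 2 * K) + 4 / (γ ^ 2 * K ^ 2) *
          ∑ m, ∑ m', ∑ β, wa η β * ic (Neg (g h m) m' β)) := by
          refine sum_le_sum fun h _ => mul_le_mul_of_nonneg_left ?_ (huw0 h)
          refine h2 M η γ (g h) hη hη4 hγ ?_
          intro m β b
          simp only [hg, Function.update_idem]
      _ = 2 / (η * γ ^ 2 * K) + 4 / (γ ^ 2 * K ^ 2) *
          ∑ m, ∑ m', ∑ β, wa η β * ∑ h : M → R, uw (Lof l) h * ic (Neg (g h m) m' β) := by
          simp only [mul_add, sum_add_distrib]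
          rw [← sum_mul, huw1, one_mul]
          congr 1
          simp only [mul_sum]
          rw [sum_comm]
          refine sum_congr rfl fun m _ => ?_
          rw [sum_comm]
          refine sum_congr rfl fun m' _ => ?_
          rw [sum_comm]
          refine sum_congr rfl fun β _ => sum_congr rfl fun h _ => ?_
          ring
      _ ≤ 2 / (η * γ ^ 2 * K) + 4 / (γ ^ 2 * K ^ 2) * ∑ _m : M, ∑ _m' : M, (D / L : ℝ) := by
          refine add_le_add le_rfl (mul_le_mul_of_nonneg_left ?_ (by positivity))
          refine sum_le_sum fun m _ => sum_le_sum fun m' _ => ?_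
          calc ∑ β, wa η β * ∑ h : M → R, uw (Lof l) h * ic (Neg (g h m) m' β)
              ≤ ∑ β, wa η β * (D / L) :=
                sum_le_sum fun β _ => mul_le_mul_of_nonneg_left (hneg m m' β) (hwa0 β)
            _ = D / L := by rw [← sum_mul, hwa1, one_mul]
      _ = 2 / (η * γ ^ 2 * K) + 4 / γ ^ 2 * (D / L) := by
          simp only [sum_const, card_univ, nsmul_eq_mul]
          rw [← hKdef]
          field_simp
  -- second part
  have hsecond : ∑ β : M → Bool, wa η β * ∑ h : M → R, uw (Lof l) h *
      ∑ m, ic (A m (glu h (Function.update β m false)) ∧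
        ¬ A m (glu h (Function.update β m true))) ≤ K * (D / L) := by
    calc ∑ β : M → Bool, wa η β * ∑ h : M → R, uw (Lof l) h *
          ∑ m, ic (A m (glu h (Function.update β m false)) ∧
          ¬ A m (glu h (Function.update β m true)))
        ≤ ∑ β : M → Bool, wa η β * (K * (D / L)) := by
          refine sum_le_sum fun β _ => mul_le_mul_of_nonneg_left ?_ (hwa0 β)
          simp only [mul_sum]
          rw [sum_comm]
          calc _ ≤ ∑ _m : M, (D / L : ℝ) := sum_le_sum fun m _ => hsec m β
            _ = K * (D / L) := by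
              rw [sum_const, card_univ, nsmul_eq_mul]
      _ = K * (D / L) := by rw [← sum_mul, hwa1, one_mul]
  calc ∑ β, wa η β * ∑ h : M → R, uw (Lof l) h * ic ((1 / 2 + η + γ) * K <
        cnt fun m => (∃ u, (T m u).eval (glu h β) = true) ↔ ¬ β m = true)
      ≤ ∑ β, wa η β * ∑ h : M → R, uw (Lof l) h *
        (ic ((1 / 2 + η + γ / 2) * K < cnt fun m => g h m β = !β m) +
        2 / (γ * K) * ∑ m, ic (A m (glu h (Function.update β m false)) ∧
          ¬ A m (glu h (Function.update β m true)))) := by
        refine sum_le_sum fun β _ => mul_le_mul_of_nonneg_left ?_ (hwa0 β)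
        exact sum_le_sum fun h _ => mul_le_mul_of_nonneg_left (hic h β) (huw0 h)
    _ = (∑ β : M → Bool, wa η β * ∑ h : M → R, uw (Lof l) h *
        ic ((1 / 2 + η + γ / 2) * K < cnt fun m => g h m β = !β m)) +
        2 / (γ * K) * ∑ β : M → Bool, wa η β * ∑ h : M → R, uw (Lof l) h *
          ∑ m, ic (A m (glu h (Function.update β m false)) ∧
          ¬ A m (glu h (Function.update β m true))) := by
        rw [mul_sum, ← sum_add_distrib]
        refine sum_congr rfl fun β _ => ?_
        simp only [mul_add, sum_add_distrib]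
        congr 1
        rw [mul_left_comm, mul_sum (a := 2 / (γ * K))]
        congr 1
        refine sum_congr rfl fun h _ => ?_
        ring
    _ ≤ (2 / (η * γ ^ 2 * K) + 4 / γ ^ 2 * (D / L)) + 2 / (γ * K) * (K * (D / L)) :=
        add_le_add hfirst (mul_le_mul_of_nonneg_left hsecond (by positivity))
    _ ≤ 2 / (η * γ ^ 2 * K) + 6 / γ ^ 2 * (D / L) := by
        have h9 : 2 / (γ * K) * (K * (D / L)) = 2 / γ * (D / L) := by
          field_simp
        rw [h9]
        have h10 : 2 / γ ≤ 2 / γ ^ 2 := by
          apply div_le_div_of_nonneg_left (by norm_num) (by positivity)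
          nlinarith
        have h11 : 6 / γ ^ 2 = 4 / γ ^ 2 + 2 / γ ^ 2 := by ring
        rw [h11, add_mul]
        nlinarith [mul_le_mul_of_nonneg_right h10 hDL]

end Pool.Agent.H22.NE.NTL
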