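import Pool.Agent.H70.NE.Targets
import Pool.Agent.H79.OQ.TBI

/-!
# UNL: the change of an answer is unlikely to be noticed
-/

set_option autoImplicit false

namespace Pool.Agent.H22.NE.UNL

open Finset Pool.Agent.H6.NB Pool.Agent.H70.OQ Pool.Agent.H70.NC Pool.Agent.H70.NE

/-- the read set of a tree -/
theorem read_set {X : Type} [DecidableEq X] (T : Pool.Agent.H68.AC.DT X) (y : X → Bool) :
    ∃ Q : Finset X, Q.card ≤ T.depth ∧ ∀ y' : X → Bool, (∀ v ∈ Q, y' v = y v) →
      T.eval y' = T.eval y := by
  induction T with
  | leaf b => exact ⟨∅, by simp [Pool.Agent.H68.AC.DT.depth], fun y' _ => rfl⟩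
  | node v l r ihl ihr =>
    obtain ⟨Ql, hl1, hl2⟩ := ihl
    obtain ⟨Qr, hr1, hr2⟩ := ihr
    by_cases hv : y v = true
    · refine ⟨insert v Qr, ?_, ?_⟩
      · refine (card_insert_le _ _).trans ?_
        simp only [Pool.Agent.H68.AC.DT.depth]
        have := le_max_right l.depth r.depth
        omega
      · intro y' hy'
        have h1 : y' v = y v := hy' v (mem_insert_self _ _)
        have h2 := hr2 y' (fun w hw => hy' w (mem_insert_of_mem hw))
        simp only [Pool.Agent.H68.AC.DT.eval, h1, hv, cond_true, h2]
    · refine ⟨insert v Ql, ?_, ?_⟩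
      · refine (card_insert_le _ _).trans ?_
        simp only [Pool.Agent.H68.AC.DT.depth]
        have := le_max_left l.depth r.depth
        omega
      · intro y' hy'
        have h1 : y' v = y v := hy' v (mem_insert_self _ _)
        have h2 := hl2 y' (fun w hw => hy' w (mem_insert_of_mem hw))
        have hv' : y v = false := by simpa using hv
        simp only [Pool.Agent.H68.AC.DT.eval, h1, hv', cond_false, h2]

/-- resampling of one hidden child -/
theorem resample {M R : Type} [Fintype M] [DecidableEq M] [Fintype R] [DecidableEq R]
    (L : M → Finset R) (m : M) (hL : (L m).Nonempty) (f : (M → R) → ℝ) :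
    ∑ h : M → R, uw L h * f h =
      ∑ h : M → R, uw L h *
        ∑ r : R, (if r ∈ L m then 1 / ((L m).card : ℝ) else 0) * f (Function.update h m r) := by
  have hv1 : ∑ r : R, (if r ∈ L m then 1 / ((L m).card : ℝ) else 0) = 1 := by
    rw [← sum_filter, sum_const, filter_mem_eq_inter, univ_inter, nsmul_eq_mul]
    have : ((L m).card : ℝ) ≠ 0 := by
      have := hL.card_pos
      positivity
    field_simp
  have hdec : ∀ h : M → R, uw L h = (if h m ∈ L m then 1 / ((L m).card : ℝ) else 0) *
      ∏ a ∈ univ.erase m, (if h a ∈ L a then 1 / ((L a).card : ℝ) else 0) := by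
    intro h
    unfold uw
    rw [mul_prod_erase univ (fun a => if h a ∈ L a then 1 / ((L a).card : ℝ) else 0) (mem_univ m)]
  have hW : ∀ (h : M → R) (r : R),
      ∏ a ∈ univ.erase m, (if Function.update h m r a ∈ L a then 1 / ((L a).card : ℝ) else 0) =
      ∏ a ∈ univ.erase m, (if h a ∈ L a then 1 / ((L a).card : ℝ) else 0) := by
    intro h r
    refine prod_congr rfl fun a ha => ?_
    rw [Function.update_of_ne (ne_of_mem_erase ha)]
  calc ∑ h : M → R, uw L h * f h
      = ∑ h : M → R, (∑ r : R, (if r ∈ L m then 1 / ((L m).card : ℝ) else 0)) * (uw L h * f h) := by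
        rw [hv1]
        simp
    _ = ∑ a : (M → R) × R, (if a.2 ∈ L m then 1 / ((L m).card : ℝ) else 0) *
          (uw L a.1 * f a.1) := by
        rw [Fintype.sum_prod_type]
        refine sum_congr rfl fun h _ => ?_
        rw [sum_mul]
    _ = ∑ a : (M → R) × R, uw L a.1 * ((if a.2 ∈ L m then 1 / ((L m).card : ℝ) else 0) *
          f (Function.update a.1 m a.2)) := by
        refine Fintype.sum_equiv ⟨fun a => (Function.update a.1 m a.2, a.1 m),
          fun a => (Function.update a.1 m a.2, a.1 m), ?_, ?_⟩ _ _ ?_
        · intro a; ext <;> simp
        · intro a; ext <;> simp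
        · intro a
          simp only [Equiv.coe_fn_mk]
          rw [Function.update_idem, Function.update_eq_self, hdec a.1, hdec (Function.update a.1 m a.2),
            hW, Function.update_self]
          ring
    _ = _ := by
        rw [Fintype.sum_prod_type]
        refine sum_congr rfl fun h _ => ?_
        rw [mul_sum]

theorem pf_unl (h1 : Pool.Agent.H70.OQ.T_UWS) : T_UNL := by
  intro M R U _ _ _ _ _ D L l T β m hL1 hlive hT
  obtain ⟨huw0, huw1⟩ := h1 M R (Lof l)
  have huw1 := huw1 (fun a => Pool.Agent.H79.OQ.TBI.Lof_nonempty l a)
  rw [resample (Lof l) m (Pool.Agent.H79.OQ.TBI.Lof_nonempty l m)]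
  have hLpos : (0 : ℝ) < L := by exact_mod_cast hL1
  have key : ∀ h : M → R, ∑ r : R, (if r ∈ Lof l m then 1 / ((Lof l m).card : ℝ) else 0) *
      ic ((∃ u, (T u).eval (glu (Function.update h m r) (Function.update β m false)) = true) ∧
        ¬ ∃ u, (T u).eval (glu (Function.update h m r) (Function.update β m true)) = true) ≤ D / L := by
    intro h
    have hcard : L ≤ (Lof l m).card := by
      rw [Pool.Agent.H79.OQ.TBI.Lof_eq l m (lt_of_lt_of_le (by omega) (hlive m))]
      exact hlive m
    have hcard' : (L : ℝ) ≤ (Lof l m).card := by exact_mod_cast hcard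
    have hy0 : ∀ r : R, glu (Function.update h m r) (Function.update β m false) =
        glu h (Function.update β m false) := by
      intro r
      funext v
      unfold glu
      by_cases hv : v.1 = m
      · rw [hv]
        simp
      · rw [Function.update_of_ne hv, Function.update_of_ne hv]
    by_cases hacc : ∃ u, (T u).eval (glu h (Function.update β m false)) = true
    · obtain ⟨u, hu⟩ := hacc
      obtain ⟨Q, hQ1, hQ2⟩ := read_set (T u) (glu h (Function.update β m false))
      have hle : ∀ r : R, (if r ∈ Lof l m then 1 / ((Lof l m).card : ℝ) else 0) *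
          ic ((∃ u, (T u).eval (glu (Function.update h m r) (Function.update β m false)) = true) ∧
          ¬ ∃ u, (T u).eval (glu (Function.update h m r) (Function.update β m true)) = true) ≤
          (if (m, r) ∈ Q then 1 / (L : ℝ) else 0) := by
        intro r
        by_cases hr : (m, r) ∈ Q
        · rw [if_pos hr]
          have hi1 := Pool.Agent.H79.OQ.TBI.ic_le_one
            ((∃ u, (T u).eval (glu (Function.update h m r) (Function.update β m false)) = true) ∧
            ¬ ∃ u, (T u).eval (glu (Function.update h m r) (Function.update β m true)) = true)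
          have h2 : (if r ∈ Lof l m then 1 / ((Lof l m).card : ℝ) else 0) ≤ 1 / (L : ℝ) := by
            split_ifs
            · exact one_div_le_one_div_of_le hLpos hcard'
            · positivity
          have h3 : 0 ≤ (if r ∈ Lof l m then 1 / ((Lof l m).card : ℝ) else 0) := by
            split_ifs <;> positivity
          calc _ ≤ (if r ∈ Lof l m then 1 / ((Lof l m).card : ℝ) else 0) * 1 :=
                mul_le_mul_of_nonneg_left hi1 h3
            _ ≤ 1 / (L : ℝ) := by rw [mul_one]; exact h2
        · rw [if_neg hr]
          have hag : (T u).eval (glu (Function.update h m r) (Function.update β m true)) = true := by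
            rw [hQ2 _ ?_, hu]
            intro v hv
            unfold glu
            by_cases hvm : v.1 = m
            · have hv2 : v.2 ≠ r := by
                intro e
                apply hr
                rw [← e, ← hvm]
                exact hv
              rw [hvm]
              simp [hv2]
            · rw [Function.update_of_ne hvm, Function.update_of_ne hvm, Function.update_of_ne hvm]
          have : ic ((∃ u, (T u).eval (glu (Function.update h m r) (Function.update β m false)) = true) ∧
            ¬ ∃ u, (T u).eval (glu (Function.update h m r) (Function.update β m true)) = true) = 0 := by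
            unfold ic
            rw [if_neg]
            rintro ⟨_, hn⟩
            exact hn ⟨u, hag⟩
          rw [this, mul_zero]
      calc _ ≤ ∑ r : R, (if (m, r) ∈ Q then 1 / (L : ℝ) else 0) := sum_le_sum fun r _ => hle r
        _ = ((univ.filter fun r : R => (m, r) ∈ Q).card : ℝ) * (1 / L) := by
            rw [← sum_filter, sum_const, nsmul_eq_mul]
        _ ≤ (D : ℝ) * (1 / L) := by
            refine mul_le_mul_of_nonneg_right ?_ (by positivity)
            have h4 : (univ.filter fun r : R => (m, r) ∈ Q).card ≤ Q.card := by
              refine card_le_card_of_injOn (fun r => (m, r)) ?_ ?_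
              · intro r hr
                simpa using hr
              · intro a _ b _ hab
                simpa using hab
            exact_mod_cast (h4.trans hQ1).trans (hT u)
        _ = D / L := by ring
    · have hz : ∀ r : R, ic ((∃ u, (T u).eval (glu (Function.update h m r)
          (Function.update β m false)) = true) ∧
          ¬ ∃ u, (T u).eval (glu (Function.update h m r) (Function.update β m true)) = true) = 0 := by
        intro r
        unfold ic
        rw [if_neg]
        rintro ⟨⟨u, hu⟩, _⟩
        rw [hy0 r] at hu
        exact hacc ⟨u, hu⟩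
      simp only [hz, mul_zero, sum_const_zero]
      positivity
  calc _ ≤ ∑ h : M → R, uw (Lof l) h * (D / L) := by
        refine sum_le_sum fun h _ => mul_le_mul_of_nonneg_left (key h) (huw0 h)
    _ = D / L := by rw [← sum_mul, huw1, one_mul]

end Pool.Agent.H22.NE.UNL
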